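import Pool.Agent.TH603.EL.Key
import Pool.Agent.TH603.EL.FinK

/-! Emptiness of plane systems, and Nagata's inequality for every number of points. -/

namespace Pool.Agent.TH603.EL

theorem keyS : KeyS := fun _ _ _ _ h0 h1 h => Emp_key h0 h1 h

open Pool.Agent.TH176.Nag in
theorem Emp_plane {ι : Type} [Fintype ι] (hn : 9 ≤ Fintype.card ι) {w : ι → ℕ} {d : ℕ}
    (h : √(Fintype.card ι) * (d : ℝ) < ∑ i, (w i : ℝ)) :
    Emp w {m : ℤ × ℤ | 0 ≤ m.1 ∧ 0 ≤ m.2 ∧ m.1 + m.2 ≤ (d : ℤ)} :=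
  Emp_plane_of keyS hn h

open MvPolynomial in
/-- Nagata's inequality for `n ≥ 9` very general points, not strict -/
theorem nagata_le {n : ℕ} (hn : 9 ≤ n) {v : Fin n → Fin 3 → ℂ} (hv0 : ∀ i, v i 0 ≠ 0)
    (hind : AlgebraicIndependent (⊥ : Subfield ℂ)
        (fun q : Fin n × Fin 2 => v q.1 q.2.succ / v q.1 0))
    {d : ℕ} {m : Fin n → ℕ} {F : MvPolynomial (Fin 3) ℂ} (hF : F ≠ 0)
    (hFd : F.IsHomogeneous d)
    (hm : ∀ i : Fin n, ∀ s : Fin 3 →₀ ℕ, (∑ j, s j) < m i →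
            MvPolynomial.coeff s
              (MvPolynomial.aeval
                (fun j : Fin 3 => (X j + MvPolynomial.C (v i j) : MvPolynomial (Fin 3) ℂ)) F) = 0) :
    ∑ i, (m i : ℝ) ≤ d * Real.sqrt (n : ℝ) :=
  nagata_le_of keyS hn hv0 hind hF hFd hm

open MvPolynomial in
/-- **Nagata's conjecture**: `n` very general points, `n ≥ 10` not a square -/
theorem nagata_all {n : ℕ} (hn : 9 ≤ n) (hsq : ¬ IsSquare n) {v : Fin n → Fin 3 → ℂ}
    (hv0 : ∀ i, v i 0 ≠ 0)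
    (hind : AlgebraicIndependent (⊥ : Subfield ℂ)
        (fun q : Fin n × Fin 2 => v q.1 q.2.succ / v q.1 0))
    {d : ℕ} {m : Fin n → ℕ} {F : MvPolynomial (Fin 3) ℂ} (hF : F ≠ 0) (hd : 0 < d)
    (hFd : F.IsHomogeneous d)
    (hm : ∀ i : Fin n, ∀ s : Fin 3 →₀ ℕ, (∑ j, s j) < m i →
            MvPolynomial.coeff s
              (MvPolynomial.aeval
                (fun j : Fin 3 => (X j + MvPolynomial.C (v i j) : MvPolynomial (Fin 3) ℂ)) F) = 0) :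
    ∑ i, (m i : ℝ) < d * Real.sqrt (n : ℝ) :=
  nagata_all_of keyS hn hsq hv0 hind hF hd hFd hm

end Pool.Agent.TH603.EL
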