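import Pool.Agent.TH603.EL.Fin

/-! Perfect squares: the strict inequality. -/

namespace Pool.Agent.TH603.EL

open Finset MvPolynomial Pool.Agent.TH176.Nag Pool.Agent.H932R5

/-- the boundary case for perfect squares -/
theorem Emp_square {ι : Type} [Fintype ι] {k d : ℕ} (hk : 4 ≤ k) (hd : 0 < d)
    (hc : Fintype.card ι = k ^ 2) {w : ι → ℕ} (h : (k : ℝ) * d ≤ ∑ i, (w i : ℝ)) :
    Emp w {m : ℤ × ℤ | 0 ≤ m.1 ∧ 0 ≤ m.2 ∧ m.1 + m.2 ≤ (d : ℤ)} := by
  have hk' : (4 : ℝ) ≤ k := by exact_mod_cast hk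
  have hd' : (1 : ℝ) ≤ d := by exact_mod_cast hd
  have hkd : (0 : ℝ) < 2 * k * d := by positivity
  obtain ⟨σ, hσ⟩ : ∃ σ : ℝ, σ * (2 * k * d) = 1 := ⟨1 / (2 * k * d), by field_simp⟩
  have hσ0 : 0 < σ := by
    by_contra hcon
    nlinarith
  have hσ1 : σ ≤ 1 / 8 := by
    have h8 : (8 : ℝ) ≤ 2 * k * d := by nlinarith
    nlinarith
  obtain ⟨A0, hA1, hA2⟩ : ∃ A0 : ℤ, 3 * A0 ≤ -4 * (d : ℤ) ∧ -4 * (d : ℤ) ≤ 3 * A0 + 2 :=
    ⟨(-4 * (d : ℤ)) / 3, by omega, by omega⟩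
  have hA1' : 3 * (A0 : ℝ) ≤ -4 * d := by exact_mod_cast hA1
  have hA2' : -4 * (d : ℝ) ≤ 3 * A0 + 2 := by exact_mod_cast hA2
  have hτ0 : 0 < (1 - σ) / 3 := by linarith
  have hτ1 : (1 - σ) / 3 < 1 := by linarith
  apply Emp_key hτ0 hτ1
  refine Emp_regA 1 (3 * k - 4) 1 0 (by ring) (by norm_num) (by push_cast; linarith)
    (by push_cast; linarith) (by linarith) (α' := -(d * (4 - σ) / 3)) (β' := d * k - 4 * d / 3)
    (μ' := 3 * k - σ) (ν' := (3 * k - 9 - σ) * (3 * k - σ) / 9) (by push_cast; ring)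
    (by push_cast; ring) (by push_cast; ring) (by push_cast; ring) ?_
  have hfin : Emp w (Reg ((A0 : ℝ) + 1) ((A0 : ℝ) + d * k) (3 * k) (k ^ 2 - 3 * k)) := by
    apply Pool.Agent.TH819.NagA.Emp_final w _ _ _ _ (by linarith) (by nlinarith)
    · rw [hc]; push_cast; ring
    · linarith
  refine hfin.mono ?_
  rintro ⟨a, b⟩ ⟨hb, hl, hr⟩
  simp only at hb hl hr
  have hb0 : (0 : ℝ) ≤ b := by exact_mod_cast hb
  -- the height
  have hbb : (b : ℝ) ≤ 3 * d / 11 := by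
    have h1 : (3 * (k : ℝ) - σ) * ((3 * k - σ) * b) ≤ (3 * (k : ℝ) - σ) * (3 * d) := by nlinarith
    have h2 : (3 * (k : ℝ) - σ) * b ≤ 3 * d := le_of_mul_le_mul_left h1 (by linarith)
    rw [le_div_iff₀ (by norm_num)]
    nlinarith
  refine ⟨hb, ?_, ?_⟩
  · simp only
    have h1 : -(4 * (d : ℝ) / 3) < a - 3 * k * b := by nlinarith
    have h2 : A0 < a - 3 * k * b := by
      have : (A0 : ℝ) < ((a - 3 * k * b : ℤ) : ℝ) := by push_cast; linarith
      exact_mod_cast this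
    have h3 : ((A0 + 1 : ℤ) : ℝ) ≤ ((a - 3 * k * b : ℤ) : ℝ) := by exact_mod_cast h2
    push_cast at h3
    linarith
  · simp only
    have h0 : σ * (2 * k * b) ≤ 3 / 11 := by
      have : σ * (2 * k) * b ≤ σ * (2 * k) * (3 * d / 11) :=
        mul_le_mul_of_nonneg_left hbb (by positivity)
      nlinarith
    have h1 : (a : ℝ) + (k ^ 2 - 3 * k) * b - d * k ≤ -(4 * d / 3) + 1 / 11 := by
      have e : (3 * (k : ℝ) - 9 - σ) * (3 * k - σ) / 9 * b =
          (k ^ 2 - 3 * k) * b - (σ * (2 * k * b)) / 3 + σ * b + σ ^ 2 * b / 9 := by ring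
      have p1 : 0 ≤ σ * b := by positivity
      have p2 : 0 ≤ σ ^ 2 * b / 9 := by positivity
      nlinarith
    have h2 : a + (k ^ 2 - 3 * k) * b - d * k < A0 + 1 := by
      have : ((a + (k ^ 2 - 3 * k) * b - d * k : ℤ) : ℝ) < ((A0 + 1 : ℤ) : ℝ) := by
        push_cast; linarith
      exact_mod_cast this
    have h3 : ((a + (k ^ 2 - 3 * k) * b - d * k : ℤ) : ℝ) ≤ ((A0 : ℤ) : ℝ) := by
      have : a + (k ^ 2 - 3 * k) * b - d * k ≤ A0 := by omega
      exact_mod_cast this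
    push_cast at h3
    linarith

/-- no curve if the system with doubled multiplicities and degree is empty somewhere -/
theorem false_of_Emp {n : ℕ} {v : Fin n → Fin 3 → ℂ} (hv0 : ∀ i, v i 0 ≠ 0)
    (hind : AlgebraicIndependent (⊥ : Subfield ℂ)
        (fun q : Fin n × Fin 2 => v q.1 q.2.succ / v q.1 0))
    {d : ℕ} {m : Fin n → ℕ} {F : MvPolynomial (Fin 3) ℂ} (hF : F ≠ 0) (hFd : F.IsHomogeneous d)
    (hE : Emp (fun i => 2 * m i)
      {m : ℤ × ℤ | 0 ≤ m.1 ∧ 0 ≤ m.2 ∧ m.1 + m.2 ≤ ((2 * d : ℕ) : ℤ)})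
    (hm : ∀ i : Fin n, ∀ s : Fin 3 →₀ ℕ, (∑ j, s j) < m i →
            MvPolynomial.coeff s
              (MvPolynomial.aeval
                (fun j : Fin 3 => (X j + MvPolynomial.C (v i j) : MvPolynomial (Fin 3) ℂ)) F) = 0) :
    False := by
  have hind' : AlgebraicIndependent ℚ (fun q : Fin n × Fin 2 => v q.1 q.2.succ / v q.1 0) :=
    hind.restrictScalars (algebraMap ℚ (⊥ : Subfield ℂ)).injective
  have hxy : AlgebraicIndependent ℚ (fun q : Fin n × Fin 2 =>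
      ![(fun i => v i 1 / v i 0) q.1, (fun i => v i 2 / v i 0) q.1] q.2) := by
    have e : (fun q : Fin n × Fin 2 => (![(fun i => v i 1 / v i 0) q.1, (fun i => v i 2 / v i 0) q.1] : Fin 2 → ℂ) q.2) =
        (fun q : Fin n × Fin 2 => v q.1 q.2.succ / v q.1 0) := by
      funext q
      obtain ⟨i, j⟩ := q
      fin_cases j <;> rfl
    rw [e]; exact hind'
  have hx : ∀ i, v i 1 / v i 0 ≠ 0 := fun i => hind'.ne_zero (i, 0)
  have hy : ∀ i, v i 2 / v i 0 ≠ 0 := fun i => hind'.ne_zero (i, 1)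
  have hfin : ({m : ℤ × ℤ | 0 ≤ m.1 ∧ 0 ≤ m.2 ∧ m.1 + m.2 ≤ ((2 * d : ℕ) : ℤ)}).Finite := by
    apply Set.Finite.subset (Set.finite_Icc ((0, 0) : ℤ × ℤ) (((2 * d : ℕ) : ℤ), ((2 * d : ℕ) : ℤ)))
    rintro ⟨a, b⟩ ⟨h1, h2, h3⟩
    simp only at h1 h2 h3
    rw [Set.mem_Icc, Prod.mk_le_mk, Prod.mk_le_mk]
    exact ⟨⟨h1, h2⟩, by omega, by omega⟩
  have key := Pool.Agent.TH15.Nag.Emp_generic hfin (fun m hm => ⟨hm.1, hm.2.1⟩) hE
    (x := fun i => v i 1 / v i 0) (y := fun i => v i 2 / v i 0) hxy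
  have h0 := key (toL ℂ (deh ℂ 1 F ^ 2)).coeff (by
    apply toL_support
    intro s hs
    rw [← map_pow] at hs
    have h2 := deh_mem (E := 1) (hFd.pow 2)
    rw [mem_mspan] at h2
    have h3 : Finsupp.degree s ≤ d * 2 := h2 s hs
    rw [Finsupp.degree_eq_sum, Fin.sum_univ_two] at h3
    omega) (by
    intro i
    refine LM_of_pt (hx i) (hy i) (P := fun j : Fin 2 => v i j.succ / v i 0) rfl rfl ?_
    rw [mul_comm 2 (m i), pow_mul]
    exact Ideal.pow_mem_pow (mem_pt_of_taylor (E := 1) (hv0 i) hFd (hm i)) 2)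
  have h1 := toL_eq_zero h0
  have h2 : deh ℂ 1 F = 0 := by
    by_contra hne
    exact pow_ne_zero 2 hne h1
  exact hF (deh_inj (E := 1) hFd h2)

/-- **Nagata's conjecture** for every `n ≥ 10` -/
theorem nagata {n : ℕ} (hn : 9 < n) {v : Fin n → Fin 3 → ℂ}
    (hv0 : ∀ i, v i 0 ≠ 0)
    (hind : AlgebraicIndependent (⊥ : Subfield ℂ)
        (fun q : Fin n × Fin 2 => v q.1 q.2.succ / v q.1 0))
    {d : ℕ} {m : Fin n → ℕ} {F : MvPolynomial (Fin 3) ℂ} (hF : F ≠ 0) (hd : 0 < d)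
    (hFd : F.IsHomogeneous d)
    (hm : ∀ i : Fin n, ∀ s : Fin 3 →₀ ℕ, (∑ j, s j) < m i →
            MvPolynomial.coeff s
              (MvPolynomial.aeval
                (fun j : Fin 3 => (X j + MvPolynomial.C (v i j) : MvPolynomial (Fin 3) ℂ)) F) = 0) :
    ∑ i, (m i : ℝ) < d * Real.sqrt (n : ℝ) := by
  by_cases hsq : IsSquare n
  · obtain ⟨k, hk⟩ := hsq
    have hk4 : 4 ≤ k := by
      by_contra hcon
      have : k ≤ 3 := by omega
      nlinarith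
    have hsqrt : Real.sqrt (n : ℝ) = k := by
      rw [hk]
      push_cast
      exact Real.sqrt_mul_self (Nat.cast_nonneg k)
    rw [hsqrt]
    by_contra hcon
    rw [not_lt] at hcon
    refine false_of_Emp hv0 hind hF hFd ?_ hm
    apply Emp_square hk4 (by omega : 0 < 2 * d) (by rw [Fintype.card_fin, hk]; ring)
    push_cast
    rw [← mul_sum]
    linarith
  · exact nagata_all hn.le hsq hv0 hind hF hd hFd hm

end Pool.Agent.TH603.EL
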