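import Mathlib
import Pool.Agent.TH603.EL.Defs

/-! Decomposition of a form along powers of the Hesse cubic. -/

set_option autoImplicit false

namespace Pool.Agent.TH603.EL

open MvPolynomial

variable {F : Type} [Field F]

namespace Dec

theorem low_add {x y : HK F} {a : ℝ} (hx : Low x a) (hy : Low y a) : Low (x + y) a := by
  intro c hc
  rw [HahnSeries.coeff_add, hx c hc, hy c hc, add_zero]

theorem low_zero (a : ℝ) : Low (0 : HK F) a := fun _ _ => rfl

theorem low_neg {x : HK F} {a : ℝ} (hx : Low x a) : Low (-x) a := by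
  intro c hc
  rw [HahnSeries.coeff_neg, hx c hc, neg_zero]

theorem low_sum {κ : Type} (s : Finset κ) (u : κ → HK F) (a : ℝ) (h : ∀ i ∈ s, Low (u i) a) :
    Low (∑ i ∈ s, u i) a := by
  classical
  induction s using Finset.induction_on with
  | empty => simpa using low_zero a
  | insert i s hi ih =>
    rw [Finset.sum_insert hi]
    exact low_add (h i (Finset.mem_insert_self _ _))
      (ih fun j hj => h j (Finset.mem_insert_of_mem hj))

theorem low_mul {x y : HK F} {a b : ℝ} (hx : Low x a) (hy : Low y b) : Low (x * y) (a + b) := by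
  intro c hc
  rw [HahnSeries.coeff_mul]
  refine Finset.sum_eq_zero fun ij hij => ?_
  rw [Finset.mem_antidiagonal] at hij
  obtain ⟨h1, h2, h3⟩ := hij
  rcases lt_or_ge ij.1 a with h | h
  · rw [hx _ h, zero_mul]
  · rcases lt_or_ge ij.2 b with h' | h'
    · rw [hy _ h', mul_zero]
    · exfalso
      have h4 := add_le_add h h'
      rw [h3] at h4
      exact absurd hc (not_lt.mpr h4)

theorem low_one : Low (1 : HK F) 0 := by
  intro c hc
  rw [HahnSeries.coeff_one, if_neg hc.ne]

/-- all coefficients are small -/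
def CL (g : MvPolynomial (ZMod 3) (HK F)) (b : ℝ) : Prop := ∀ β, Low (g.coeff β) b

theorem CL.add {g h : MvPolynomial (ZMod 3) (HK F)} {b : ℝ} (hg : CL g b) (hh : CL h b) :
    CL (g + h) b := by
  intro β
  rw [coeff_add]
  exact low_add (hg β) (hh β)

theorem CL.mul {g h : MvPolynomial (ZMod 3) (HK F)} {a b : ℝ} (hg : CL g a) (hh : CL h b) :
    CL (g * h) (a + b) := by
  classical
  intro β
  rw [coeff_mul]
  exact low_sum _ _ _ fun x _ => low_mul (hg x.1) (hh x.2)

theorem CL.mono {g : MvPolynomial (ZMod 3) (HK F)} {a b : ℝ} (hg : CL g a) (h : b ≤ a) :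
    CL g b := fun β c hc => hg β c (hc.trans_le h)

theorem CL_monomial (α : ZMod 3 →₀ ℕ) {c : HK F} {b : ℝ} (hc : Low c b) :
    CL (monomial α c) b := by
  classical
  intro β
  rw [coeff_monomial]
  split_ifs
  · exact hc
  · exact low_zero b

/-- the exponent (1, 1, 1) -/
noncomputable def uu : ZMod 3 →₀ ℕ := Finsupp.equivFunOnFinite.symm (fun _ => 1)

theorem uu_apply (l : ZMod 3) : uu l = 1 := rfl

/-- the product of the variables -/
noncomputable def PP (F : Type) [Field F] : MvPolynomial (ZMod 3) (HK F) := monomial uu 1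

theorem PP_eq : PP F = X 0 * X 1 * X 2 := by
  have h : uu = Finsupp.single (0 : ZMod 3) 1 + Finsupp.single (1 : ZMod 3) 1 +
      Finsupp.single (2 : ZMod 3) 1 := by
    ext l
    rw [uu_apply]
    simp only [Finsupp.add_apply, Finsupp.single_apply]
    fin_cases l <;> decide
  unfold PP
  rw [h]
  simp only [X, monomial_mul, one_mul]

theorem CL_X3 (l : ZMod 3) : CL (X l ^ 3 : MvPolynomial (ZMod 3) (HK F)) 0 := by
  rw [X_pow_eq_monomial]
  exact CL_monomial _ low_one

theorem CL_PP : CL (PP F) 0 := CL_monomial _ low_one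

theorem hes_eq (A : HK F) : hes A = PP F + C A * (X 0 ^ 3 + X 1 ^ 3 + X 2 ^ 3) := by
  rw [PP_eq]
  rfl

theorem CL_rest {A : HK F} (hA : Low A 1) :
    CL (C A * (X 0 ^ 3 + X 1 ^ 3 + X 2 ^ 3) : MvPolynomial (ZMod 3) (HK F)) 1 := by
  have h := (CL_monomial (0 : ZMod 3 →₀ ℕ) hA).mul (((CL_X3 (F := F) 0).add (CL_X3 1)).add (CL_X3 2))
  exact h.mono (by norm_num)

theorem CL_hes {A : HK F} (hA : Low A 1) : CL (hes A) 0 := by
  rw [hes_eq]
  exact CL_PP.add ((CL_rest hA).mono (by norm_num))

theorem CL_pow {g : MvPolynomial (ZMod 3) (HK F)} (hg : CL g 0) (j : ℕ) : CL (g ^ j) 0 := by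
  induction j with
  | zero =>
    rw [pow_zero]
    exact CL_monomial (0 : ZMod 3 →₀ ℕ) low_one
  | succ j ih =>
    rw [pow_succ]
    exact (ih.mul hg).mono (by norm_num)

theorem CL_diff {A : HK F} (hA : Low A 1) (j : ℕ) : CL (hes A ^ j - PP F ^ j) 1 := by
  induction j with
  | zero =>
    rw [pow_zero, pow_zero, sub_self]
    intro β
    rw [coeff_zero]
    exact low_zero 1
  | succ j ih =>
    have h : hes A ^ (j + 1) - PP F ^ (j + 1) = hes A * (hes A ^ j - PP F ^ j) +
        (C A * (X 0 ^ 3 + X 1 ^ 3 + X 2 ^ 3)) * PP F ^ j := by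
      have h1 := hes_eq A
      have h2 : C A * (X 0 ^ 3 + X 1 ^ 3 + X 2 ^ 3) = hes A - PP F := by
        rw [h1]
        ring
      rw [h2]
      ring
    rw [h]
    exact (((CL_hes hA).mul ih).mono (by norm_num)).add
      (((CL_rest hA).mul (CL_pow CL_PP j)).mono (by norm_num))

/-- the least exponent -/
def jj (α : ZMod 3 →₀ ℕ) : ℕ := min (α 0) (min (α 1) (α 2))

theorem jj_le (α : ZMod 3 →₀ ℕ) (l : ZMod 3) : jj α ≤ α l := by
  unfold jj
  fin_cases l
  · exact min_le_left _ _
  · exact (min_le_right _ _).trans (min_le_left _ _)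
  · exact (min_le_right _ _).trans (min_le_right _ _)

theorem jj_eq (α : ZMod 3 →₀ ℕ) : ∃ l, jj α = α l := by
  unfold jj
  rcases min_choice (α 0) (min (α 1) (α 2)) with h | h
  · exact ⟨0, h⟩
  · rcases min_choice (α 1) (α 2) with h' | h'
    · exact ⟨1, h.trans h'⟩
    · exact ⟨2, h.trans h'⟩

/-- the reduced exponent -/
noncomputable def bb (α : ZMod 3 →₀ ℕ) : ZMod 3 →₀ ℕ :=
  Finsupp.equivFunOnFinite.symm (fun l => α l - jj α)

theorem bb_apply (α : ZMod 3 →₀ ℕ) (l : ZMod 3) : bb α l = α l - jj α := rfl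

theorem bb_add (α : ZMod 3 →₀ ℕ) : bb α + jj α • uu = α := by
  ext l
  rw [Finsupp.add_apply, Finsupp.smul_apply, uu_apply, bb_apply, smul_eq_mul, mul_one]
  exact Nat.sub_add_cancel (jj_le α l)

theorem deg_eq (α : ZMod 3 →₀ ℕ) : α.degree = α 0 + α 1 + α 2 := by
  rw [Finsupp.degree_eq_sum]
  exact Fin.sum_univ_three (fun l : Fin 3 => α l)

theorem deg_bb (α : ZMod 3 →₀ ℕ) : (bb α).degree + 3 * jj α = α.degree := by
  rw [deg_eq, deg_eq, bb_apply, bb_apply, bb_apply]
  have h0 := jj_le α 0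
  have h1 := jj_le α 1
  have h2 := jj_le α 2
  omega

/-- the new basis -/
noncomputable def MM (A : HK F) (α : ZMod 3 →₀ ℕ) : MvPolynomial (ZMod 3) (HK F) :=
  monomial (bb α) 1 * hes A ^ jj α

theorem CL_MM {A : HK F} (hA : Low A 1) (α : ZMod 3 →₀ ℕ) : CL (MM A α - monomial α 1) 1 := by
  have h : MM A α - monomial α 1 = monomial (bb α) 1 * (hes A ^ jj α - PP F ^ jj α) := by
    have h1 : (monomial α 1 : MvPolynomial (ZMod 3) (HK F)) = monomial (bb α) 1 * PP F ^ jj α := by
      unfold PP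
      rw [monomial_pow, monomial_mul, one_pow, one_mul, bb_add]
    rw [h1]
    unfold MM
    ring
  rw [h]
  exact ((CL_monomial _ low_one).mul (CL_diff hA _)).mono (by norm_num)

theorem hes_homog (A : HK F) : (hes A).IsHomogeneous 3 := by
  unfold hes
  refine IsHomogeneous.add ?_ ?_
  · exact ((isHomogeneous_X _ _).mul (isHomogeneous_X _ _)).mul (isHomogeneous_X _ _)
  · have h : ((X 0 ^ 3 + X 1 ^ 3 + X 2 ^ 3 : MvPolynomial (ZMod 3) (HK F))).IsHomogeneous 3 := by
      refine IsHomogeneous.add (IsHomogeneous.add ?_ ?_) ?_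
      · simpa using (isHomogeneous_X (HK F) (0 : ZMod 3)).pow 3
      · simpa using (isHomogeneous_X (HK F) (1 : ZMod 3)).pow 3
      · simpa using (isHomogeneous_X (HK F) (2 : ZMod 3)).pow 3
    simpa using (isHomogeneous_C (ZMod 3) A).mul h

theorem MM_homog (A : HK F) (α : ZMod 3 →₀ ℕ) : (MM A α).IsHomogeneous α.degree := by
  rw [← deg_bb α]
  unfold MM
  refine (isHomogeneous_monomial _ rfl).mul ?_
  exact (hes_homog A).pow (jj α)

/-- the exponents of degree d -/
noncomputable def II (d : ℕ) : Finset (ZMod 3 →₀ ℕ) := Finset.finsuppAntidiag Finset.univ d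

theorem mem_II (d : ℕ) (α : ZMod 3 →₀ ℕ) : α ∈ II d ↔ α.degree = d := by
  unfold II
  rw [Finset.mem_finsuppAntidiag, Finsupp.degree_eq_sum]
  constructor
  · exact fun h => h.1
  · exact fun h => ⟨h, Finset.subset_univ _⟩

/-- the change of basis -/
noncomputable def Phi (A : HK F) (d : ℕ) : (II d → HK F) →ₗ[HK F] (II d → HK F) where
  toFun v := fun β => ∑ α : II d, v α * (MM A α.1).coeff β.1
  map_add' v w := by
    funext β
    simp only [Pi.add_apply, add_mul, Finset.sum_add_distrib]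
  map_smul' c v := by
    funext β
    simp only [Pi.smul_apply, smul_eq_mul, RingHom.id_apply, Finset.mul_sum, mul_assoc]

theorem Phi_apply (A : HK F) (d : ℕ) (v : II d → HK F) (β : II d) :
    Phi A d v β = ∑ α : II d, v α * (MM A α.1).coeff β.1 := rfl

theorem Phi_inj {A : HK F} (hA : Low A 1) (d : ℕ) : Function.Injective (Phi A d) := by
  classical
  rw [injective_iff_map_eq_zero]
  intro v hv
  by_contra hne
  obtain ⟨α1, hα1⟩ := Function.ne_iff.mp hne
  obtain ⟨α0, hα0, hmin⟩ := Finset.exists_min_image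
    (Finset.univ.filter (fun α : II d => v α ≠ 0)) (fun α => (v α).order)
    ⟨α1, by simpa using hα1⟩
  have hα0' : v α0 ≠ 0 := (Finset.mem_filter.mp hα0).2
  set b := (v α0).order with hb
  have hlow : ∀ α, Low (v α) b := by
    intro α c hc
    by_cases h : v α = 0
    · rw [h]
      rfl
    · exact HahnSeries.coeff_eq_zero_of_lt_order
        (hc.trans_le (hmin α (Finset.mem_filter.mpr ⟨Finset.mem_univ _, h⟩)))
  have hcoef : (v α0).coeff b ≠ 0 := by
    intro h
    exact hα0' (HahnSeries.coeff_order_eq_zero.mp h)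
  have h1 : Phi A d v α0 = v α0 + ∑ α : II d, v α * (MM A α.1 - monomial α.1 1).coeff α0.1 := by
    rw [Phi_apply]
    have h2 : ∀ α : II d, v α * (MM A α.1).coeff α0.1 = (if α = α0 then v α else 0) +
        v α * (MM A α.1 - monomial α.1 1).coeff α0.1 := by
      intro α
      rw [coeff_sub, mul_sub, coeff_monomial]
      by_cases h : α = α0
      · rw [if_pos h, if_pos (by rw [h]), mul_one]
        ring
      · rw [if_neg h, if_neg (fun h' => h (Subtype.ext h')), mul_zero]
        ring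
    rw [Finset.sum_congr rfl fun α _ => h2 α, Finset.sum_add_distrib, Finset.sum_ite_eq']
    simp
  have h3 : (Phi A d v α0).coeff b = (v α0).coeff b := by
    rw [h1, HahnSeries.coeff_add]
    have h4 : Low (∑ α : II d, v α * (MM A α.1 - monomial α.1 1).coeff α0.1) (b + 1) :=
      low_sum _ _ _ fun α _ => low_mul (hlow α) (CL_MM hA α.1 α0.1)
    rw [h4 b (by linarith), add_zero]
  rw [hv] at h3
  exact hcoef h3.symm

end Dec

open Dec in
theorem decomp {A : HK F} (hA : Low A 1) {d : ℕ} {f : MvPolynomial (ZMod 3) (HK F)}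
    (hf : f.IsHomogeneous d) : ∃ g : ℕ → MvPolynomial (ZMod 3) (HK F),
      (∀ j, 3 * j ≤ d → (g j).IsHomogeneous (d - 3 * j)) ∧ (∀ j, Red (g j)) ∧
      f = ∑ j ∈ Finset.range (d / 3 + 1), g j * hes A ^ j := by
  classical
  obtain ⟨v, hv⟩ := LinearMap.injective_iff_surjective.mp (Phi_inj hA d)
    (fun β : II d => f.coeff β.1)
  have hsum : f = ∑ α : II d, C (v α) * MM A α.1 := by
    refine MvPolynomial.ext _ _ fun β => ?_
    rw [coeff_sum]
    by_cases h : β.degree = d
    · have h1 := congrFun hv ⟨β, (mem_II d β).mpr h⟩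
      rw [Phi_apply] at h1
      rw [← h1]
      refine Finset.sum_congr rfl fun α _ => ?_
      rw [coeff_C_mul]
    · rw [hf.coeff_eq_zero h]
      symm
      refine Finset.sum_eq_zero fun α _ => ?_
      have h2 := MM_homog A α.1
      rw [(mem_II d α.1).mp α.2] at h2
      rw [coeff_C_mul, h2.coeff_eq_zero h, mul_zero]
  have hjd : ∀ α : II d, 3 * jj α.1 ≤ d := by
    intro α
    have h1 := deg_bb α.1
    rw [(mem_II d α.1).mp α.2] at h1
    omega
  refine ⟨fun j => ∑ α ∈ Finset.univ.filter (fun α : II d => jj α.1 = j),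
    C (v α) * monomial (bb α.1) 1, ?_, ?_, ?_⟩
  · intro j hj
    refine IsHomogeneous.sum _ _ _ fun α hα => ?_
    have h1 := deg_bb α.1
    rw [(mem_II d α.1).mp α.2, (Finset.mem_filter.mp hα).2] at h1
    rw [C_mul_monomial]
    exact isHomogeneous_monomial _ (by omega)
  · intro j β hβ
    rw [mem_support_iff, coeff_sum] at hβ
    obtain ⟨α, hα, h⟩ := Finset.exists_ne_zero_of_sum_ne_zero hβ
    rw [C_mul_monomial, coeff_monomial] at h
    have hb : bb α.1 = β := by
      by_contra hb
      rw [if_neg hb] at h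
      exact h rfl
    obtain ⟨l, hl⟩ := jj_eq α.1
    refine ⟨l, ?_⟩
    rw [← hb, bb_apply, hl, Nat.sub_self]
  · rw [hsum]
    have h1 : ∀ α ∈ (Finset.univ : Finset (II d)), jj α.1 ∈ Finset.range (d / 3 + 1) := by
      intro α _
      have := hjd α
      rw [Finset.mem_range]
      omega
    rw [← Finset.sum_fiberwise_of_maps_to h1]
    refine Finset.sum_congr rfl fun j _ => ?_
    rw [Finset.sum_mul]
    refine Finset.sum_congr rfl fun α hα => ?_
    unfold MM
    rw [(Finset.mem_filter.mp hα).2, mul_assoc]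

end Pool.Agent.TH603.EL
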