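import Pool.Agent.TH603.EL.Scal1
import Pool.Agent.TH603.EL.Scal2

/-! The exponent bound for the leading coefficient of a form at the theta functions. -/

set_option autoImplicit false

namespace Pool.Agent.TH603.EL

open MvPolynomial

namespace Scal3

/-- the projection `(i, j) ↦ (i, 0)` -/
def pr0 : ℤ × ℤ →+ ℤ × ℤ where
  toFun m := (m.1, 0)
  map_zero' := rfl
  map_add' _ _ := by simp

section
variable {F : Type} [Field F]

/-- the endomorphism `Y ↦ 1` -/
noncomputable def prL (F : Type) [Field F] : Lau F →+* Lau F :=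
  AddMonoidAlgebra.mapDomainRingHom F pr0

theorem prL_zero {u : Lau F} {i j : ℤ} (hj : j ≠ 0) : (prL F u).coeff (i, j) = 0 := by
  show (AddMonoidAlgebra.mapDomain pr0 u).coeff (i, j) = 0
  rw [AddMonoidAlgebra.coeff_mapDomain]
  apply Finsupp.mapDomain_of_notMem_range
  rintro ⟨m, hm⟩
  apply hj
  have := congrArg Prod.snd hm
  exact this.symm

theorem prL_self {u : Lau F} (h : ∀ i j, j ≠ 0 → u.coeff (i, j) = 0) : prL F u = u := by
  show AddMonoidAlgebra.mapDomain pr0 u = u
  apply AddMonoidAlgebra.ext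
  rw [AddMonoidAlgebra.coeff_mapDomain]
  have h1 : Finsupp.mapDomain (pr0 : ℤ × ℤ → ℤ × ℤ) u.coeff = Finsupp.mapDomain id u.coeff := by
    apply Finsupp.mapDomain_congr
    rintro ⟨i, j⟩ hm
    have hj : j = 0 := by
      by_contra hj
      exact (Finsupp.mem_support_iff.1 hm) (h i j hj)
    subst hj
    rfl
  rw [h1, Finsupp.mapDomain_id]

/-- the same on Hahn series -/
noncomputable def prR (F : Type) [Field F] : HR F →+* HR F where
  toFun x := x.map (prL F)
  map_one' := by
    ext a m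
    simp only [HahnSeries.map_coeff, HahnSeries.coeff_one]
    split_ifs <;> simp
  map_mul' x y := HahnSeries.map_mul ((prL F : Lau F →+* Lau F) : Lau F →ₙ+* Lau F)
  map_zero' := by ext; simp
  map_add' x y := by ext; simp

theorem cf_prR {x : HR F} {a : ℝ} {i j : ℤ} (hj : j ≠ 0) : cf (prR F x) a i j = 0 :=
  prL_zero hj

theorem prR_self {x : HR F} (h : ∀ a i j, j ≠ 0 → cf x a i j = 0) : prR F x = x := by
  apply HahnSeries.ext
  funext a
  exact prL_self fun i j hj => h a i j hj

theorem ev_prR (τ : ℝ) (g : MvPolynomial (ZMod 3) (HK F)) :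
    prR F (ev (theta F τ) g) = ev (theta F τ) g := by
  have h : (prR F).comp (ev (theta F τ)) = ev (theta F τ) := by
    apply MvPolynomial.ringHom_ext
    · intro c
      simp only [RingHom.comp_apply, ev, eval₂Hom_C]
      apply prR_self
      intro a i j hj
      rw [cf_incl, if_neg (fun h => hj h.2)]
    · intro l
      simp only [RingHom.comp_apply, ev, eval₂Hom_X']
      apply prR_self
      intro a i j hj
      rw [cf_theta, if_neg (fun h => hj h.1)]
  exact congrArg (fun φ : MvPolynomial (ZMod 3) (HK F) →+* HR F => φ g) h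

theorem no_Y (τ : ℝ) (g : MvPolynomial (ZMod 3) (HK F)) {a : ℝ} {i j : ℤ}
    (h : cf (ev (theta F τ) g) a i j ≠ 0) : j = 0 := by
  by_contra hj
  apply h
  rw [← ev_prR]
  exact cf_prR hj

theorem not_low {x : HR F} {a b : ℝ} (hx : Low x a) {i j : ℤ} (h : cf x b i j ≠ 0) : a ≤ b := by
  by_contra hb
  push Not at hb
  apply h
  unfold cf
  rw [hx b hb]
  simp

end

end Scal3

open Scal3 in
theorem exponent_bound {F : Type} [Field F] {m : ℕ} {g : MvPolynomial (ZMod 3) (HK F)}
    (hg : g.IsHomogeneous m)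
    (τ : ℝ) {a : ℝ} (hlow : Low (ev (theta F τ) g) a) {i j : ℤ}
    (h : cf (ev (theta F τ) g) a i j ≠ 0) :
    -((m : ℝ) * (1 + τ)) ≤ i ∧ (i : ℝ) ≤ m * (2 - τ) ∧ j = 0 := by
  refine ⟨?_, ?_, no_Y τ g h⟩
  · have h1 : cf (ev (theta F (τ + 3)) g) (a + 3 * i) i j ≠ 0 := by
      rw [ev_scal]; exact h
    rw [ev_theta_add_three hg, cf_tz_mul] at h1
    have h2 := not_low hlow h1
    nlinarith
  · have h1 : cf (ev (theta F (τ - 3)) g) (a - 3 * i) i j ≠ 0 := by
      have e := ev_scal g τ (-3) a i j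
      have e1 : τ + -3 = τ - 3 := by ring
      have e2 : a + -3 * (i : ℝ) = a - 3 * i := by ring
      rw [e1, e2] at e
      rw [e]; exact h
    have e3 := ev_theta_add_three hg (τ - 3)
    have e4 : τ - 3 + 3 = τ := by ring
    rw [e4] at e3
    have h3 : cf (ev (theta F τ) g) (a - 3 * i + -(3 * m * (τ - 3 + 1))) (i + -(3 * m)) j ≠ 0 := by
      rw [e3, cf_tz_mul]
      have e5 : a - 3 * (i : ℝ) + -(3 * m * (τ - 3 + 1)) - -(3 * m * (τ - 3 + 1)) =
        a - 3 * i := by ring
      have e6 : i + -(3 * (m : ℤ)) - -(3 * (m : ℤ)) = i := by ring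
      have e7 : j - 0 = j := by ring
      rw [e5, e6, e7]
      exact h1
    have h2 := not_low hlow h3
    nlinarith

end Pool.Agent.TH603.EL
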