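import Pool.Agent.TH603.EL.Defs

/-! The difference of the tube and the theta functions. -/

set_option autoImplicit false

namespace Pool.Agent.TH603.EL

open MvPolynomial

variable {F : Type} [Field F]

namespace TubeD

lemma low_add {x y : HR F} {a : ℝ} (hx : Low x a) (hy : Low y a) : Low (x + y) a := by
  intro c hc
  rw [HahnSeries.coeff_add, hx c hc, hy c hc, add_zero]

lemma low_sum {ι : Type} (s : Finset ι) (f : ι → HR F) {a : ℝ} (h : ∀ i ∈ s, Low (f i) a) :
    Low (∑ i ∈ s, f i) a := by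
  classical
  induction s using Finset.induction_on with
  | empty => intro c _; simp
  | insert i s hi ih =>
    rw [Finset.sum_insert hi]
    exact low_add (h i (Finset.mem_insert_self i s))
      (ih fun j hj => h j (Finset.mem_insert_of_mem hj))

lemma low_mul {x y : HR F} {a b : ℝ} (hx : Low x a) (hy : Low y b) : Low (x * y) (a + b) := by
  intro c hc
  rw [HahnSeries.coeff_mul]
  apply Finset.sum_eq_zero
  rintro ⟨i, j⟩ hij
  rw [Finset.mem_antidiagonal] at hij
  obtain ⟨_, _, h3⟩ := hij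
  simp only at h3
  by_cases hi : i < a
  · simp only [hx i hi, zero_mul]
  · have hj : j < b := by linarith
    simp only [hy j hj, mul_zero]

lemma low_one : Low (1 : HR F) 0 := by
  intro c hc
  rw [HahnSeries.coeff_one, if_neg hc.ne]

lemma low_pow {x : HR F} (hx : Low x 0) (n : ℕ) : Low (x ^ n) 0 := by
  induction n with
  | zero => rw [pow_zero]; exact low_one
  | succ n ih =>
    rw [pow_succ]
    have := low_mul ih hx
    rwa [add_zero] at this

lemma low_prod {ι : Type} (s : Finset ι) (f : ι → HR F) (h : ∀ i ∈ s, Low (f i) 0) :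
    Low (∏ i ∈ s, f i) 0 := by
  classical
  induction s using Finset.induction_on with
  | empty => rw [Finset.prod_empty]; exact low_one
  | insert i s hi ih =>
    rw [Finset.prod_insert hi]
    have := low_mul (h i (Finset.mem_insert_self i s))
      (ih fun j hj => h j (Finset.mem_insert_of_mem hj))
    rwa [add_zero] at this

lemma low_pow_sub {x y : HR F} {s : ℝ} (hx : Low x 0) (hy : Low y 0) (hxy : Low (x - y) s) (n : ℕ) :
    Low (x ^ n - y ^ n) s := by
  induction n with
  | zero => intro c _; simp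
  | succ n ih =>
    have h1 : x ^ (n + 1) - y ^ (n + 1) = x * (x ^ n - y ^ n) + (x - y) * y ^ n := by ring
    rw [h1]
    have h2 := low_mul hx ih
    have h3 := low_mul hxy (low_pow hy n)
    rw [zero_add] at h2
    rw [add_zero] at h3
    exact low_add h2 h3

lemma low_prod_sub {ι : Type} (t : Finset ι) (f g : ι → HR F) {s : ℝ} (hf : ∀ i ∈ t, Low (f i) 0)
    (hg : ∀ i ∈ t, Low (g i) 0) (hfg : ∀ i ∈ t, Low (f i - g i) s) :
    Low (∏ i ∈ t, f i - ∏ i ∈ t, g i) s := by
  classical
  induction t using Finset.induction_on with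
  | empty => intro c _; simp
  | insert i t hi ih =>
    rw [Finset.prod_insert hi, Finset.prod_insert hi]
    have h1 : f i * ∏ j ∈ t, f j - g i * ∏ j ∈ t, g j =
        f i * (∏ j ∈ t, f j - ∏ j ∈ t, g j) + (f i - g i) * ∏ j ∈ t, g j := by ring
    rw [h1]
    have h2 := low_mul (hf i (Finset.mem_insert_self i t))
      (ih (fun j hj => hf j (Finset.mem_insert_of_mem hj))
        (fun j hj => hg j (Finset.mem_insert_of_mem hj))
        (fun j hj => hfg j (Finset.mem_insert_of_mem hj)))
    have h3 := low_mul (hfg i (Finset.mem_insert_self i t))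
      (low_prod t g fun j hj => hg j (Finset.mem_insert_of_mem hj))
    rw [zero_add] at h2
    rw [add_zero] at h3
    exact low_add h2 h3

lemma low_incl {c : HK F} {b : ℝ} (h : Low c b) : Low (incl c) b := by
  intro a ha
  have : (incl c).coeff a = AddMonoidAlgebra.singleZeroRingHom (R := F) (M := ℤ × ℤ) (c.coeff a) := rfl
  rw [this, h a ha, map_zero]

lemma ex_nonneg {τ : ℝ} (h0 : 0 ≤ τ) (h1 : τ ≤ 1) (i : ℤ) : 0 ≤ ex τ i := by
  unfold ex
  have h2 : (2 * ee i : ℝ) = i * (i - 1) := by exact_mod_cast two_ee i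
  rcases le_or_gt 0 i with hi | hi
  · have h3 : (0:ℝ) ≤ i := by exact_mod_cast hi
    have h4 : (0:ℝ) ≤ (i:ℝ) * (i - 1) := by
      have : 0 ≤ i * (i - 1) := by
        rcases hi.eq_or_lt with h | h
        · rw [← h]; simp
        · exact mul_nonneg hi (by omega)
      exact_mod_cast this
    nlinarith [mul_nonneg h3 h0]
  · have h3 : (i:ℝ) ≤ -1 := by exact_mod_cast (by omega : i ≤ -1)
    nlinarith [mul_nonneg (by linarith : (0:ℝ) ≤ -i) (by linarith : (0:ℝ) ≤ 1 - τ)]

lemma low_theta {τ : ℝ} (h0 : 0 ≤ τ) (h1 : τ ≤ 1) (l : ZMod 3) : Low (theta F τ l) 0 := by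
  classical
  intro a ha
  ext ⟨i, j⟩
  have h2 := cf_theta (F := F) τ l a i j
  unfold cf at h2
  rw [h2, if_neg]
  · simp
  · rintro ⟨_, _, h3⟩
    have := ex_nonneg h0 h1 i
    linarith

lemma low_tz (s : ℝ) (i j : ℤ) : Low (tz F s i j) s := by
  intro a ha
  unfold tz
  exact HahnSeries.coeff_single_of_ne ha.ne

lemma ev_eq (X : ZMod 3 → HR F) (g : MvPolynomial (ZMod 3) (HK F)) :
    ev X g = ∑ α ∈ g.support, incl (g.coeff α) * ∏ i, X i ^ α i := by
  unfold ev
  rw [coe_eval₂Hom, eval₂_eq']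

lemma low_ev_sub {g : MvPolynomial (ZMod 3) (HK F)} {b : ℝ} (hlow : ∀ β, Low (g.coeff β) b)
    {X Y : ZMod 3 → HR F} {s : ℝ} (hX : ∀ l, Low (X l) 0) (hY : ∀ l, Low (Y l) 0)
    (hXY : ∀ l, Low (X l - Y l) s) : Low (ev X g - ev Y g) (s + b) := by
  rw [ev_eq, ev_eq, ← Finset.sum_sub_distrib]
  apply low_sum
  intro α _
  rw [← mul_sub, add_comm s b]
  apply low_mul (low_incl (hlow α))
  exact low_prod_sub _ _ _ (fun i _ => low_pow (hX i) _) (fun i _ => low_pow (hY i) _)
    (fun i _ => low_pow_sub (hX i) (hY i) (hXY i) _)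

end TubeD

open TubeD in
theorem tube_diff {g : MvPolynomial (ZMod 3) (HK F)} {b : ℝ} (hlow : ∀ β, Low (g.coeff β) b)
    {τ : ℝ} (h0 : 0 ≤ τ) (h1 : τ ≤ 1) {s : ℝ} (hs : 0 ≤ s) :
    Low (ev (tube F τ s) g - ev (theta F τ) g) (s + b) := by
  have hd : ∀ l, Low (tube F τ s l - theta F τ l) s := by
    intro l
    unfold tube
    rw [add_sub_cancel_left]
    split_ifs
    · exact low_tz s 0 1
    · intro c _; simp
  refine low_ev_sub hlow ?_ (fun l => low_theta h0 h1 l) hd
  intro l
  have h2 : tube F τ s l = theta F τ l + (tube F τ s l - theta F τ l) := by ring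
  rw [h2]
  exact low_add (low_theta h0 h1 l) (fun c hc => hd l c (by linarith))

end Pool.Agent.TH603.EL
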