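import Pool.Agent.TH603.EL.Defs
import Pool.Agent.TH603.EL.Low

/-! The value of the Hesse cubic on the tube (helper264). -/

namespace Pool.Agent.TH603.EL

open MvPolynomial

variable {F : Type} [Field F]

namespace TubeH

lemma two_ex (τ : ℝ) (i : ℤ) : 2 * ex τ i = i * (i - 1) + 2 * i * τ := by
  unfold ex
  have h2 : (2 * ee i : ℝ) = i * (i - 1) := by exact_mod_cast two_ee i
  linarith

lemma mod_cases (i : ℤ) (l : ℤ) (h : (i : ZMod 3) = (l : ZMod 3)) : ∃ k : ℤ, i = l + 3 * k := by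
  rw [ZMod.intCast_eq_intCast_iff] at h
  obtain ⟨k, hk⟩ := (Int.modEq_iff_dvd.1 h)
  exact ⟨-k, by push_cast at hk; linarith⟩

lemma ex0 {τ : ℝ} (h0 : 0 < τ) (h1 : τ < 1) {i : ℤ} (hi : (i : ZMod 3) = 0) (hne : i ≠ 0) :
    0 < ex τ i := by
  obtain ⟨k, hk⟩ := mod_cases i 0 (by simpa using hi)
  have h := two_ex τ i
  have h3 : 3 ≤ i ∨ i ≤ -3 := by omega
  rcases h3 with h3 | h3
  · have h4 : (3 : ℝ) ≤ i := by exact_mod_cast h3
    nlinarith
  · have h4 : (i : ℝ) ≤ -3 := by exact_mod_cast h3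
    nlinarith

lemma ex1 {τ : ℝ} (h0 : 0 < τ) (h1 : τ < 1) {i : ℤ} (hi : (i : ZMod 3) = 1) (hne : i ≠ 1) :
    τ < ex τ i := by
  obtain ⟨k, hk⟩ := mod_cases i 1 (by simpa using hi)
  have h := two_ex τ i
  have h3 : 4 ≤ i ∨ i ≤ -2 := by omega
  rcases h3 with h3 | h3
  · have h4 : (4 : ℝ) ≤ i := by exact_mod_cast h3
    nlinarith
  · have h4 : (i : ℝ) ≤ -2 := by exact_mod_cast h3
    nlinarith

lemma ex2 {τ : ℝ} (h0 : 0 < τ) (h1 : τ < 1) {i : ℤ} (hi : (i : ZMod 3) = 2) (hne : i ≠ -1) :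
    1 - τ < ex τ i := by
  obtain ⟨k, hk⟩ := mod_cases i 2 (by simpa using hi)
  have h := two_ex τ i
  have h3 : 2 ≤ i ∨ i ≤ -4 := by omega
  rcases h3 with h3 | h3
  · have h4 : (2 : ℝ) ≤ i := by exact_mod_cast h3
    nlinarith
  · have h4 : (i : ℝ) ≤ -4 := by exact_mod_cast h3
    nlinarith

lemma coeff_theta (τ : ℝ) (l : ZMod 3) (a : ℝ) (i0 : ℤ) (hl : (i0 : ZMod 3) = l)
    (ha : ex τ i0 = a) (h : ∀ i : ℤ, (i : ZMod 3) = l → ex τ i = a → i = i0) :
    (theta F τ l).coeff a = AddMonoidAlgebra.single (i0, 0) 1 := by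
  classical
  ext ⟨i, j⟩
  have h1 := cf_theta (F := F) τ l a i j
  unfold cf at h1
  rw [h1]
  have h2 : (AddMonoidAlgebra.single ((i0 : ℤ), (0 : ℤ)) (1 : F)).coeff (i, j) =
      if j = 0 ∧ i = i0 then 1 else 0 := by
    have h3 : (((i0 : ℤ), (0 : ℤ)) = (i, j)) ↔ (j = 0 ∧ i = i0) := by
      rw [Prod.ext_iff]
      constructor <;> rintro ⟨h4, h5⟩ <;> exact ⟨h5.symm, h4.symm⟩
    simp [Finsupp.single_apply, h3]
  rw [h2]
  congr 1
  apply propext
  constructor
  · rintro ⟨h3, h4, h5⟩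
    exact ⟨h3, h i h4 h5⟩
  · rintro ⟨h3, rfl⟩
    exact ⟨h3, hl, ha⟩

end TubeH

open TubeH

theorem low_theta1 {τ : ℝ} (h0 : 0 < τ) (h1 : τ < 1) : Low (theta F τ 1) τ := by
  intro a ha
  ext ⟨i, j⟩
  have := cf_theta (F := F) τ 1 a i j
  unfold cf at this
  rw [this, if_neg]
  · simp
  · rintro ⟨_, hi, h⟩
    by_cases h2 : i = 1
    · subst h2
      have := two_ex τ 1
      push_cast at this
      linarith
    · have := ex1 h0 h1 hi h2
      linarith

theorem low_theta2 {τ : ℝ} (h0 : 0 < τ) (h1 : τ < 1) : Low (theta F τ 2) (1 - τ) := by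
  intro a ha
  ext ⟨i, j⟩
  have := cf_theta (F := F) τ 2 a i j
  unfold cf at this
  rw [this, if_neg]
  · simp
  · rintro ⟨_, hi, h⟩
    by_cases h2 : i = -1
    · subst h2
      have := two_ex τ (-1)
      push_cast at this
      linarith
    · have := ex2 h0 h1 hi h2
      linarith

theorem coeff_theta0 {τ : ℝ} (h0 : 0 < τ) (h1 : τ < 1) : (theta F τ 0).coeff 0 = 1 := by
  have h := coeff_theta (F := F) τ 0 0 0 (by simp)
    (by have := two_ex τ 0; push_cast at this; linarith)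
    (fun i hi hx => by
      by_contra hne
      have := ex0 h0 h1 hi hne
      linarith)
  rw [h]
  rfl

theorem coeff_theta1 {τ : ℝ} (h0 : 0 < τ) (h1 : τ < 1) :
    (theta F τ 1).coeff τ = AddMonoidAlgebra.single (1, 0) 1 :=
  coeff_theta (F := F) τ 1 τ 1 (by simp)
    (by have := two_ex τ 1; push_cast at this; linarith)
    (fun i hi hx => by
      by_contra hne
      have := ex1 h0 h1 hi hne
      linarith)

theorem coeff_theta2 {τ : ℝ} (h0 : 0 < τ) (h1 : τ < 1) :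
    (theta F τ 2).coeff (1 - τ) = AddMonoidAlgebra.single (-1, 0) 1 :=
  coeff_theta (F := F) τ 2 (1 - τ) (-1) (by decide)
    (by have := two_ex τ (-1); push_cast at this; linarith)
    (fun i hi hx => by
      by_contra hne
      have := ex2 h0 h1 hi hne
      linarith)

theorem tube_hes {A : HK F} (hA : Low A 1) {τ : ℝ} (h0 : 0 < τ) (h1 : τ < 1)
    (hrel : ev (theta F τ) (hes A) = 0) {s : ℝ} (hs : 1 ≤ s) :
    Low (ev (tube F τ s) (hes A)) (s + τ) ∧
      (ev (tube F τ s) (hes A)).coeff (s + τ) = AddMonoidAlgebra.single (1, 1) 1 := by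
  have e1 : ∀ X : ZMod 3 → HR F, ev X (hes A) =
      X 0 * X 1 * X 2 + incl A * (X 0 ^ 3 + X 1 ^ 3 + X 2 ^ 3) := by
    intro X
    simp only [hes, map_add, map_mul, map_pow, ev_X, ev_C]
  have t0 : tube F τ s 0 = theta F τ 0 := by
    unfold tube
    rw [if_neg (by decide), add_zero]
  have t1 : tube F τ s 1 = theta F τ 1 := by
    unfold tube
    rw [if_neg (by decide), add_zero]
  have t2 : tube F τ s 2 = theta F τ 2 + tz F s 0 1 := by
    unfold tube
    rw [if_pos rfl]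
  obtain ⟨D, hD⟩ : ∃ D : HR F, D = theta F τ 0 * theta F τ 1 + incl A *
      (theta F τ 2 ^ 2 + theta F τ 2 ^ 2 + theta F τ 2 ^ 2 + (theta F τ 2 * tz F s 0 1 +
        theta F τ 2 * tz F s 0 1 + theta F τ 2 * tz F s 0 1) + tz F s 0 1 ^ 2) := ⟨_, rfl⟩
  have e2 : ev (tube F τ s) (hes A) = tz F s 0 1 * D := by
    rw [e1, t0, t1, t2, hD]
    rw [e1] at hrel
    linear_combination hrel
  have l0 : Low (theta F τ 0) 0 := low_theta h0.le h1.le 0
  have l1 : Low (theta F τ 1) τ := low_theta1 h0 h1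
  have l2 : Low (theta F τ 2) 0 := low_theta h0.le h1.le 2
  have ls : Low (tz F s 0 1) s := low_tz s 0 1
  have ls0 : Low (tz F s 0 1) 0 := ls.mono (by linarith)
  have l22 : Low (theta F τ 2 ^ 2) 0 := l2.pow_zero' 2
  have l2s : Low (theta F τ 2 * tz F s 0 1) 0 := by
    have := l2.mul ls0
    rwa [add_zero] at this
  have lE : Low (theta F τ 2 ^ 2 + theta F τ 2 ^ 2 + theta F τ 2 ^ 2 + (theta F τ 2 * tz F s 0 1 +
        theta F τ 2 * tz F s 0 1 + theta F τ 2 * tz F s 0 1) + tz F s 0 1 ^ 2) 0 :=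
    (((l22.add l22).add l22).add ((l2s.add l2s).add l2s)).add (ls0.pow_zero' 2)
  have lAE := hA.incl.mul lE
  rw [add_zero] at lAE
  have l01 := l0.mul l1
  rw [zero_add] at l01
  have c01 : (theta F τ 0 * theta F τ 1).coeff τ = AddMonoidAlgebra.single (1, 0) 1 := by
    have h := l0.coeff_mul l1
    rw [zero_add] at h
    rw [h, coeff_theta0 h0 h1, coeff_theta1 h0 h1, one_mul]
  have lD : Low D τ := by
    rw [hD]
    exact l01.add (lAE.mono h1.le)
  have cD : D.coeff τ = AddMonoidAlgebra.single (1, 0) 1 := by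
    rw [hD, HahnSeries.coeff_add, c01, lAE τ h1, add_zero]
  rw [e2]
  refine ⟨ls.mul lD, ?_⟩
  rw [ls.coeff_mul lD, coeff_tz, cD, AddMonoidAlgebra.single_mul_single]
  simp

end Pool.Agent.TH603.EL
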